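import Mathlib
import Pool.Agent.H67.AG.T6
import Pool.Agent.H67.AG.T1

/-!
ABSOLUTE GAP (`MP_c59857_nt`): basic facts on conditional expectations given the invariant sets.
-/

set_option autoImplicit false

open MeasureTheory ProbabilityTheory Filter Topology Finset
open scoped Nat ENNReal

namespace Pool.Agent.H17.AG

open Pool.Agent.H67.AG

section basic

variable {Ω : Type} [mΩ : MeasurableSpace Ω]

theorem inv_le (T : Ω ≃ᵐ Ω) (n : ℕ) : Inv T n ≤ mΩ := MeasurableSpace.invariants_le _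

theorem inv_mono (T : Ω ≃ᵐ Ω) (W n : ℕ) : Inv T W ≤ Inv T (W * n) := by
  have h := MeasurableSpace.le_invariants_iterate (T^[W]) n
  rw [← Function.iterate_mul] at h
  exact h

theorem inv_pre (T : Ω ≃ᵐ Ω) (W n : ℕ) (A : Set Ω) (hA : MeasurableSet[Inv T W] A) :
    T^[W * n] ⁻¹' A = A := (inv_mono T W n A hA).2

theorem meas_iter (T : Ω ≃ᵐ Ω) (n : ℕ) : Measurable (T^[n]) := T.measurable.iterate n

/-- integrals over invariant sets -/
theorem shift_int (P : Measure Ω) (T : Ω ≃ᵐ Ω) (hT : MeasurePreserving T P P) (W n : ℕ)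
    (A : Set Ω) (hA : MeasurableSet[Inv T W] A) (f : Ω → ℝ) (hf : Measurable f) :
    ∫ ω in A, f (T^[W * n] ω) ∂P = ∫ ω in A, f ω ∂P := by
  have h := hT.iterate (W * n)
  have h2 := setIntegral_map (μ := P) (g := T^[W * n]) (f := f) (s := A) hA.1
    hf.aestronglyMeasurable h.measurable.aemeasurable
  rw [h.map_eq, inv_pre T W n A hA] at h2
  exact h2.symm

/-- a function with finitely many choices -/
theorem meas_sel {n : ℕ} (s₁ s₂ : Ω → Fin n) (h₁ : Measurable s₁) (h₂ : Measurable s₂)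
    (F : Fin n → Fin n → Ω → ℝ) (hF : ∀ a b, Measurable (F a b)) :
    Measurable (fun ω => F (s₁ ω) (s₂ ω) ω) := by
  have h : Measurable (fun q : (Fin n × Fin n) × Ω => F q.1.1 q.1.2 q.2) :=
    measurable_from_prod_countable_right (fun x => hF x.1 x.2)
  exact h.comp ((h₁.prodMk h₂).prodMk measurable_id)

/-- a bounded measurable function is integrable -/
theorem int_bdd (P : Measure Ω) [IsFiniteMeasure P] (f : Ω → ℝ) (hf : Measurable f) (C : ℝ)
    (hC : ∀ ω, |f ω| ≤ C) : Integrable f P :=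
  Integrable.of_bound hf.aestronglyMeasurable C (Eventually.of_forall fun ω => by
    rw [Real.norm_eq_abs]; exact hC ω)

/-- translates by the invariant power have the same conditional expectation -/
theorem ce_shift (hec : T_EC) (P : Measure Ω) [IsProbabilityMeasure P] (T : Ω ≃ᵐ Ω)
    (hT : MeasurePreserving T P P) (V l : ℕ) (f : Ω → ℝ) (hf : Measurable f)
    (hb : ∃ C, ∀ ω, |f ω| ≤ C) :
    P[fun ω => f (T^[V * l] ω) | Inv T V] =ᵐ[P] P[f | Inv T V] := by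
  obtain ⟨h1, h2⟩ := hec Ω P T V (V * l) f hT hf hb
  refine h1.trans (Eventually.of_forall fun ω => ?_)
  have h3 : ∀ l : ℕ, ∀ ω, (P[f | Inv T V]) (T^[V * l] ω) = (P[f | Inv T V]) ω := by
    intro l
    induction l with
    | zero => intro ω; rfl
    | succ l ih =>
      intro ω
      rw [Nat.mul_succ, Function.iterate_add_apply, ih, h2]
  exact h3 l ω

/-- averages over the invariant power have the same conditional expectation -/
theorem ce_avg (hec : T_EC) (P : Measure Ω) [IsProbabilityMeasure P] (T : Ω ≃ᵐ Ω)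
    (hT : MeasurePreserving T P P) (V L : ℕ) (hL : 0 < L) (f : Ω → ℝ) (hf : Measurable f)
    (hb : ∃ C, ∀ ω, |f ω| ≤ C) :
    P[Av T V L f | Inv T V] =ᵐ[P] P[f | Inv T V] := by
  have hint : ∀ l ∈ range L, Integrable (fun ω => f (T^[V * l] ω)) P := by
    intro l _
    obtain ⟨C, hC⟩ := hb
    exact int_bdd P _ (hf.comp (meas_iter T _)) C fun ω => hC _
  have h1 : Av T V L f = fun ω => (L : ℝ)⁻¹ * (∑ l ∈ range L, fun ω => f (T^[V * l] ω)) ω := by
    funext ω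
    rw [Finset.sum_apply, Av, div_eq_inv_mul]
  have h2 : P[Av T V L f | Inv T V] =ᵐ[P]
      fun ω => (L : ℝ)⁻¹ * (P[∑ l ∈ range L, fun ω => f (T^[V * l] ω) | Inv T V]) ω := by
    rw [h1]
    exact condExp_smul (L : ℝ)⁻¹ (∑ l ∈ range L, fun ω => f (T^[V * l] ω)) (Inv T V)
  have h3 := condExp_finsetSum (μ := P) (s := range L) (f := fun l ω => f (T^[V * l] ω)) hint
    (Inv T V)
  have h4 : ∀ᵐ ω ∂P, ∀ l : ℕ, (P[fun ω => f (T^[V * l] ω) | Inv T V]) ω = (P[f | Inv T V]) ω :=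
    ae_all_iff.2 fun l => ce_shift hec P T hT V l f hf hb
  filter_upwards [h2, h3, h4] with ω e2 e3 e4
  rw [e2, e3, Finset.sum_apply, Finset.sum_congr rfl (fun l _ => e4 l), Finset.sum_const,
    card_range, nsmul_eq_mul, ← mul_assoc, inv_mul_cancel₀ (by positivity), one_mul]

/-- comparison of conditional expectations -/
theorem ce_cmp (P : Measure Ω) [IsProbabilityMeasure P] (I J : MeasurableSpace Ω) (hIJ : I ≤ J)
    (hJ : J ≤ mΩ) (A : Set Ω) (hA : MeasurableSet[I] A) (Φ Φ' Ψ : Ω → ℝ) (_h1 : Integrable Φ P)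
    (h2 : Integrable Φ' P) (h3 : Integrable Ψ P) (h : P[Φ' | J] =ᵐ[P] P[Φ | J]) :
    ∫ ω in A, |(P[Φ | J]) ω - (P[Φ | I]) ω| ∂P ≤
      2 * ∫ ω in A, |Φ' ω - Ψ ω| ∂P + ∫ ω in A, |(P[Ψ | J]) ω - (P[Ψ | I]) ω| ∂P := by
  have hI : I ≤ mΩ := hIJ.trans hJ
  have t1 : P[P[Φ | J] | I] =ᵐ[P] P[Φ | I] := condExp_condExp_of_le hIJ hJ
  have t2 : P[P[Ψ | J] | I] =ᵐ[P] P[Ψ | I] := condExp_condExp_of_le hIJ hJ
  have s1 : P[Φ' - Ψ | J] =ᵐ[P] P[Φ' | J] - P[Ψ | J] := condExp_sub h2 h3 J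
  have s2 : P[P[Φ | J] - P[Ψ | J] | I] =ᵐ[P] P[P[Φ | J] | I] - P[P[Ψ | J] | I] :=
    condExp_sub integrable_condExp integrable_condExp I
  have b1 : ∫ ω in A, |(P[Φ | J] - P[Ψ | J]) ω| ∂P ≤ ∫ ω in A, |(Φ' - Ψ) ω| ∂P := by
    refine le_trans (le_of_eq ?_) (setIntegral_abs_condExp_le (μ := P) (hIJ A hA) (Φ' - Ψ))
    refine integral_congr_ae (ae_restrict_of_ae ?_)
    filter_upwards [s1, h] with ω e1 e2
    rw [e1, Pi.sub_apply, Pi.sub_apply, e2]
  have b2 : ∫ ω in A, |(P[P[Φ | J] - P[Ψ | J] | I]) ω| ∂P ≤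
      ∫ ω in A, |(P[Φ | J] - P[Ψ | J]) ω| ∂P :=
    setIntegral_abs_condExp_le (μ := P) hA (P[Φ | J] - P[Ψ | J])
  have b3 : ∫ ω in A, |(P[P[Φ | J] - P[Ψ | J] | I]) ω| ∂P =
      ∫ ω in A, |(P[Φ | I]) ω - (P[Ψ | I]) ω| ∂P := by
    refine integral_congr_ae (ae_restrict_of_ae ?_)
    filter_upwards [s2, t1, t2] with ω e1 e2 e3
    rw [e1, Pi.sub_apply, e2, e3]
  have i1 : Integrable (fun ω => |(P[Φ | J]) ω - (P[Ψ | J]) ω|) (P.restrict A) :=
    ((integrable_condExp.sub integrable_condExp).abs).integrableOn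
  have i2 : Integrable (fun ω => |(P[Φ | I]) ω - (P[Ψ | I]) ω|) (P.restrict A) :=
    ((integrable_condExp.sub integrable_condExp).abs).integrableOn
  have i3 : Integrable (fun ω => |(P[Ψ | J]) ω - (P[Ψ | I]) ω|) (P.restrict A) :=
    ((integrable_condExp.sub integrable_condExp).abs).integrableOn
  have i4 : Integrable (fun ω => |(P[Φ | J]) ω - (P[Φ | I]) ω|) (P.restrict A) :=
    ((integrable_condExp.sub integrable_condExp).abs).integrableOn
  have key : ∫ ω in A, |(P[Φ | J]) ω - (P[Φ | I]) ω| ∂P ≤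
      ∫ ω in A, (|(P[Φ | J]) ω - (P[Ψ | J]) ω| + |(P[Φ | I]) ω - (P[Ψ | I]) ω| +
        |(P[Ψ | J]) ω - (P[Ψ | I]) ω|) ∂P := by
    refine integral_mono i4 ((i1.add i2).add i3) fun ω => ?_
    have e : (P[Φ | J]) ω - (P[Φ | I]) ω = ((P[Φ | J]) ω - (P[Ψ | J]) ω) -
      ((P[Φ | I]) ω - (P[Ψ | I]) ω) + ((P[Ψ | J]) ω - (P[Ψ | I]) ω) := by ring
    change |(P[Φ | J]) ω - (P[Φ | I]) ω| ≤ |(P[Φ | J]) ω - (P[Ψ | J]) ω| +
      |(P[Φ | I]) ω - (P[Ψ | I]) ω| + |(P[Ψ | J]) ω - (P[Ψ | I]) ω|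
    rw [e]
    refine (abs_add_le _ _).trans (add_le_add (abs_sub _ _) le_rfl)
  have i12 : Integrable (fun ω => |(P[Φ | J]) ω - (P[Ψ | J]) ω| + |(P[Φ | I]) ω - (P[Ψ | I]) ω|)
      (P.restrict A) := i1.add i2
  rw [integral_add i12 i3, integral_add i1 i2] at key
  have b1' : ∫ ω in A, |(P[Φ | J]) ω - (P[Ψ | J]) ω| ∂P ≤ ∫ ω in A, |Φ' ω - Ψ ω| ∂P := b1
  have b2' : ∫ ω in A, |(P[Φ | I]) ω - (P[Ψ | I]) ω| ∂P ≤
      ∫ ω in A, |(P[Φ | J]) ω - (P[Ψ | J]) ω| ∂P := by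
    rw [← b3]; exact b2
  linarith

end basic

end Pool.Agent.H17.AG
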