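import Pool.Agent.H64.AG.Defs

/-! Countable dense subsets (CDS). -/

set_option autoImplicit false

open Topology Cardinal

namespace Pool.Agent.H17.AG

open Pool.Agent.H20.SL Pool.Agent.H64.AK Pool.Agent.H60.CP Pool.Agent.H64.AG

theorem cds : T_CDS := by
  intro X _ _ l hl F hF δ hinj P hP
  have hc : CompactSpace F := isCompact_iff_compactSpace.1 hF.isCompact
  have hcount : Countable (Set.Iio δ) := (OmegaOne.cIio δ).to_subtype
  let Φ : F → (Set.Iio δ → ℝ) := fun x ξ => l ξ x
  have hΦc : Continuous Φ := continuous_pi fun ξ => (hl ξ).comp continuous_subtype_val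
  have hΦi : Function.Injective Φ := by
    intro x y h
    apply Subtype.ext
    exact hinj x x.2 y y.2 fun ξ hξ => congrFun h ⟨ξ, hξ⟩
  have hΦ : IsClosedEmbedding Φ := hΦc.isClosedEmbedding hΦi
  have h2F : SecondCountableTopology F := hΦ.isInducing.secondCountableTopology
  let j : P → F × F := fun z => (⟨z.1.1, (hP z z.2).1⟩, ⟨z.1.2, (hP z z.2).2⟩)
  have hjc : Continuous j := by
    refine Continuous.prodMk ?_ ?_
    · exact (continuous_fst.comp continuous_subtype_val).subtype_mk _
    · exact (continuous_snd.comp continuous_subtype_val).subtype_mk _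
  have hgc : Continuous (Prod.map (Subtype.val : F → X) (Subtype.val : F → X)) :=
    continuous_subtype_val.prodMap continuous_subtype_val
  have hj : IsInducing j := by
    refine IsInducing.of_comp hjc hgc ?_
    exact IsInducing.subtypeVal
  have h2P : SecondCountableTopology P := hj.secondCountableTopology
  obtain ⟨s, hs, hd⟩ := TopologicalSpace.exists_countable_dense P
  refine ⟨Subtype.val '' s, ?_, hs.image _, ?_⟩
  · rintro _ ⟨z, -, rfl⟩
    exact z.2
  · intro z hz
    have h1 : (⟨z, hz⟩ : P) ∈ closure s := hd _
    exact image_closure_subset_closure_image continuous_subtype_val ⟨_, h1, rfl⟩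

end Pool.Agent.H17.AG
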