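import Pool.Agent.H64.AG.Defs

/-! The dichotomy (DIC). -/

set_option autoImplicit false

open Topology Cardinal

namespace Pool.Agent.H17.AG

open Pool.Agent.H20.SL Pool.Agent.H64.AK Pool.Agent.H60.CP Pool.Agent.H64.AG

/-- polynomials in countably many of the variables -/
lemma countable_polys (β : Om) : {P : MvPolynomial Om ℚ | ↑P.vars ⊆ Set.Iio β}.Countable := by
  have hcount : Countable (Set.Iio β) := (OmegaOne.cIio β).to_subtype
  have h1 : Countable (MvPolynomial (Set.Iio β) ℚ) := by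
    have h2 := MvPolynomial.cardinalMk_le_max (σ := Set.Iio β) (R := ℚ)
    rw [← Cardinal.mk_le_aleph0_iff]
    refine h2.trans ?_
    simp [Cardinal.mk_le_aleph0]
  refine (Set.countable_range (MvPolynomial.rename (Subtype.val : Set.Iio β → Om) :
    MvPolynomial (Set.Iio β) ℚ → MvPolynomial Om ℚ)).mono ?_
  intro P hP
  obtain ⟨q, hq⟩ := MvPolynomial.exists_rename_eq_of_vars_subset_range P
    (Subtype.val : Set.Iio β → Om) Subtype.val_injective (by
      rw [Subtype.range_coe]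
      exact hP)
  exact ⟨q, hq⟩

theorem dic (hSWF : T_SWF) : T_DIC := by
  intro X _ _ hCT l d hl hd ε hε
  classical
  obtain ⟨Tt, hTt⟩ : ∃ Tt : Om → Set Om, ∀ δ, Tt δ = {ξ | ∀ z ∈ PP l d δ, |df (l ξ) z| < ε} :=
    ⟨_, fun _ => rfl⟩
  have hex : ∀ δ : Om, ∃ (ξ : Om) (P : MvPolynomial Om ℚ), ¬ (Tt δ).Countable →
      (δ < ξ ∧ ↑P.vars ⊆ Set.Iio δ ∧ ∀ x ∈ closure (d '' Set.Iio δ), |l ξ x - ev l P x| < ε) := by
    intro δ
    by_cases h : (Tt δ).Countable
    · exact ⟨δ, 0, fun h' => absurd h h'⟩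
    · obtain ⟨ξ, hξ, hδξ⟩ := exists_gt_of_unc h δ
      rw [hTt] at hξ
      obtain ⟨p, hp⟩ := hSWF X (closure (d '' Set.Iio δ)) isClosed_closure (Set.Iio δ)
        (fun ξ' => l ξ'.1) (fun ξ' => hl _) (l ξ) (hl ξ) ε hε (by
          intro x hx y hy hxy
          exact hξ (x, y) ⟨hx, hy, fun ξ' hξ' => hxy ⟨ξ', hξ'⟩⟩)
      refine ⟨ξ, MvPolynomial.rename Subtype.val p, fun _ => ⟨hδξ, ?_, ?_⟩⟩
      · intro v hv
        obtain ⟨i, -, hi⟩ := MvPolynomial.mem_vars_rename _ _ hv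
        rw [← hi]
        exact i.2
      · intro x hx
        rw [ev_rename]
        exact hp x hx
  choose ξf Pf hf using hex
  by_cases hcase : ∃ P, ¬ {δ | ¬ (Tt δ).Countable ∧ Pf δ = P}.Countable
  · left
    obtain ⟨P, hP⟩ := hcase
    refine ⟨ξf '' {δ | ¬ (Tt δ).Countable ∧ Pf δ = P}, ev l P, ev_continuous hl P, ?_, ?_⟩
    · intro hJ
      obtain ⟨w, hw⟩ := bdd hJ
      apply hP
      refine (OmegaOne.cIio w).mono ?_
      intro δ hδ
      exact (hf δ hδ.1).1.trans (hw _ ⟨δ, hδ, rfl⟩)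
    · intro x
      obtain ⟨B', hB', hB'c, hxB'⟩ := hCT (Set.range d) x (hd x)
      have hch : ∀ b : B', ∃ ξ, d ξ = b.1 := fun b => hB' b.2
      choose f hff using hch
      have hcB : Countable B' := hB'c.to_subtype
      obtain ⟨w, hw⟩ := bdd (Set.countable_range f)
      have hsub : B' ⊆ d '' Set.Iio w := by
        intro b hb
        exact ⟨f ⟨b, hb⟩, hw _ ⟨_, rfl⟩, hff ⟨b, hb⟩⟩
      have hxw : x ∈ closure (d '' Set.Iio w) := closure_mono hsub hxB'
      refine ((OmegaOne.cIio w).image ξf).mono ?_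
      rintro _ ⟨⟨δ, hδ, rfl⟩, h⟩
      refine ⟨δ, ?_, rfl⟩
      by_contra hwδ
      have hwδ' : w ≤ δ := not_lt.1 hwδ
      have h1 : x ∈ closure (d '' Set.Iio δ) :=
        closure_mono (Set.image_mono (Set.Iio_subset_Iio hwδ')) hxw
      have h2 := (hf δ hδ.1).2.2 x h1
      rw [hδ.2] at h2
      exact absurd h (not_le.2 h2)
  · right
    push Not at hcase
    have hU : ∀ β : Om, (⋃ P ∈ {P : MvPolynomial Om ℚ | ↑P.vars ⊆ Set.Iio β},
        {δ | ¬ (Tt δ).Countable ∧ Pf δ = P}).Countable := fun β =>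
      (countable_polys β).biUnion fun P _ => hcase P
    have hB : ∀ β : Om, ∃ w : Om, ∀ c ∈ (⋃ P ∈ {P : MvPolynomial Om ℚ | ↑P.vars ⊆ Set.Iio β},
        {δ | ¬ (Tt δ).Countable ∧ Pf δ = P}) ∪ {β}, c < w := fun β =>
      bdd ((hU β).union (Set.countable_singleton β))
    choose B hB using hB
    refine ⟨B, fun β => hB β β (Or.inr rfl), fun δ hδ => ?_⟩
    rw [← hTt]
    by_contra hun
    obtain ⟨-, hvars, -⟩ := hf δ hun
    obtain ⟨β, hβδ, hβ⟩ : ∃ β, β < δ ∧ ↑(Pf δ).vars ⊆ Set.Iio β := by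
      rcases (Pf δ).vars.eq_empty_or_nonempty with h | h
      · obtain ⟨β, hβ⟩ := hδ.1
        exact ⟨β, hβ, by rw [h]; simp⟩
      · obtain ⟨v, hv, hmax⟩ := (Pf δ).vars.exists_max_image id h
        refine ⟨B v, hδ.2 v (hvars hv), fun u hu => ?_⟩
        exact (hmax u hu).trans_lt (hB v v (Or.inr rfl))
    have h1 : δ < B β := by
      refine hB β δ (Or.inl ?_)
      simp only [Set.mem_iUnion]
      exact ⟨Pf δ, hβ, hun, rfl⟩
    exact absurd (h1.trans (hδ.2 β hβδ)) (lt_irrefl δ)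

end Pool.Agent.H17.AG
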