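import Pool.Agent.H64.AG.Defs

/-! Reduction of the general case to the main lemma (RED). -/

set_option autoImplicit false

open Topology Cardinal

namespace Pool.Agent.H17.AG

open Pool.Agent.H20.SL Pool.Agent.H64.AK Pool.Agent.H60.CP Pool.Agent.H64.AG

theorem red (hMT : T_MT) (hCTI : T_CTI) : T_RED := by
  intro hMA X _ _ _ hCT L hLL hSep I e he hI ε hε
  have h0 : ℵ₁ ≤ #I := by
    rw [← Cardinal.succ_aleph0]
    refine Order.succ_le_of_lt ?_
    rw [← not_le, Cardinal.mk_le_aleph0_iff]
    exact hI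
  obtain ⟨io⟩ : Nonempty (Om ↪ I) := by
    rw [← Cardinal.le_def, mk_Om]
    exact h0
  let l : Om → X → ℝ := fun ξ => e (io ξ)
  have hlc : ∀ ξ, Continuous (l ξ) := fun ξ => hSep.1 _ (he _)
  let Φ : X → (Om → ℝ) := fun x ξ => l ξ x
  have hΦ : Continuous Φ := continuous_pi fun ξ => hlc ξ
  have hc : CompactSpace (Set.range Φ) := isCompact_iff_compactSpace.1 (isCompact_range hΦ)
  let q : X → Set.range Φ := Set.rangeFactorization Φ
  have hqc : Continuous q := hΦ.subtype_mk _
  have hqs : Function.Surjective q := Set.rangeFactorization_surjective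
  have hqv : ∀ x, (q x).1 = Φ x := fun x => rfl
  have hCT' : CT (Set.range Φ) := hCTI X _ q hqc hqs hCT
  have hqq : IsQuotientMap q := hqc.isClosedMap.isQuotientMap hqc hqs
  let L' : Set (Set.range Φ → ℝ) := {h | h ∘ q ∈ L}
  let l' : Om → Set.range Φ → ℝ := fun ξ u => u.1 ξ
  let s : Set.range Φ → X := Function.surjInv hqs
  have hs : ∀ u, q (s u) = u := Function.surjInv_eq hqs
  have hL1 : IsLindelof (L ∩ {f : X → ℝ | ∀ x y, q x = q y → f x = f y}) := by
    refine hLL.inter_right ?_
    have h1 : {f : X → ℝ | ∀ x y, q x = q y → f x = f y} =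
        ⋂ (x : X) (y : X) (_ : q x = q y), {f : X → ℝ | f x = f y} := by
      ext f
      simp
    rw [h1]
    refine isClosed_iInter fun x => isClosed_iInter fun y => isClosed_iInter fun _ => ?_
    exact isClosed_eq (continuous_apply x) (continuous_apply y)
  have hL'e : L' = (fun f : X → ℝ => f ∘ s) ''
      (L ∩ {f : X → ℝ | ∀ x y, q x = q y → f x = f y}) := by
    ext h
    constructor
    · intro hh
      refine ⟨h ∘ q, ⟨hh, fun x y hxy => congrArg h hxy⟩, ?_⟩
      funext u
      exact congrArg h (hs u)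
    · rintro ⟨f, ⟨hf, hf2⟩, rfl⟩
      have h1 : (f ∘ s) ∘ q = f := by
        funext x
        exact hf2 _ _ (hs (q x))
      show (f ∘ s) ∘ q ∈ L
      rw [h1]
      exact hf
  have hsys : Sys (Set.range Φ) L' l' := by
    refine ⟨?_, ?_, ?_, ?_⟩
    · rw [hL'e]
      exact hL1.image (continuous_pi fun u => continuous_apply (s u))
    · intro h hh
      exact hqq.continuous_iff.2 (hSep.1 _ hh)
    · intro ξ
      exact he (io ξ)
    · intro u v h
      exact Subtype.ext (funext h)
  obtain ⟨J, g, hg, hJ, hJ2⟩ := hMT hMA (Set.range Φ) hCT' L' l' hsys ε hε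
  refine ⟨io '' J, g ∘ q, hg.comp hqc, ?_, ?_⟩
  · intro h
    exact hJ (Set.countable_of_injective_of_countable_image io.injective.injOn h)
  · intro x
    refine ((hJ2 (q x)).image io).mono ?_
    rintro _ ⟨⟨ξ, hξ, rfl⟩, h⟩
    exact ⟨ξ, ⟨hξ, h⟩, rfl⟩

end Pool.Agent.H17.AG
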