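import Mathlib
import Pool.Agent.H17.AG.Bas

/-!
ABSOLUTE GAP (`MP_c59857_nt`), row S3: errors of the pairs, uniformly in the shift.
-/

set_option autoImplicit false

open MeasureTheory ProbabilityTheory Filter Topology Finset
open scoped Nat ENNReal

namespace Pool.Agent.H17.AG

open Pool.Agent.H67.AG

/-- clipping -/
noncomputable def clp (x : ℝ) : ℝ := max (-1) (min 1 x)

theorem clp_abs (x : ℝ) : |clp x| ≤ 1 := by
  unfold clp
  rw [abs_le]
  exact ⟨le_max_left _ _, max_le (by norm_num) (min_le_left _ _)⟩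

theorem clp_eq (x : ℝ) (h : |x| ≤ 1) : clp x = x := by
  unfold clp
  obtain ⟨h1, h2⟩ := abs_le.1 h
  rw [min_eq_right h2, max_eq_right h1]

theorem clp_meas : Measurable clp := by
  unfold clp
  exact measurable_const.max (measurable_const.min measurable_id)

theorem Dlt_pos {k : ℕ} (β : Fin k → ℕ) : 0 < Dlt β := by
  unfold Dlt
  refine Finset.prod_pos fun i _ => Finset.prod_pos fun j _ => ?_
  split_ifs with h
  · exact one_pos
  · rw [Int.natAbs_pos]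
    intro h0
    apply h
    omega

section S3

variable {d : Sw} (e : SwE d)

theorem g_iter (n : ℕ) (ω : e.Ω) : e.g (e.T^[n] ω) = d.T'^[n] (e.g ω) := by
  induction n generalizing ω with
  | zero => rfl
  | succ n ih => rw [Function.iterate_succ_apply, Function.iterate_succ_apply, ih, e.fac.2]

theorem g_meas : Measurable e.g := e.fac.1.measurable

theorem gg_meas (a b : Fin d.n) (i : Fin d.k) : Measurable (d.gg a b i) :=
  ((d.hy a).1 i).mul ((d.hy b).1 i)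

theorem y_abs (a : Fin d.n) (i : Fin d.k) (ω : d.Ω') : |d.y a i ω| = 1 := by
  rcases (d.hy a).2 i ω with h | h <;> rw [h] <;> simp

theorem gg_abs (a b : Fin d.n) (i : Fin d.k) (ω : d.Ω') : |d.gg a b i ω| ≤ 1 := by
  unfold Sw.gg
  rw [abs_mul, y_abs, y_abs, one_mul]

theorem mv_meas (l : ℕ) : Measurable (e.mv l) := by
  unfold SwE.mv
  refine Measurable.ite ?_ measurable_const measurable_const
  exact measurableSet_eq_fun (e.sm.comp (meas_iter e.T _)) e.sm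

theorem mv_nonneg (l : ℕ) (ω : e.Ω) : 0 ≤ e.mv l ω := by
  unfold SwE.mv
  split_ifs <;> norm_num

theorem mv_le (l : ℕ) (ω : e.Ω) : e.mv l ω ≤ 1 := by
  unfold SwE.mv
  split_ifs <;> norm_num

theorem mv_int (l : ℕ) : Integrable (e.mv l) e.P :=
  int_bdd e.P _ (mv_meas e l) 1 fun ω => by
    rw [abs_of_nonneg (mv_nonneg e l ω)]; exact mv_le e l ω

/-- the mismatch in terms of a product -/
theorem dl_eq (t : ℕ) (i : Fin d.k) (ω : e.Ω) : dl e.ys (e.yt t) i ω =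
    (1 - d.gg (e.s ω) (e.s (e.T^[d.W * t] ω)) i (e.g ω)) / 2 := by
  unfold dl SwE.ys SwE.yt Sw.gg
  rcases (d.hy (e.s ω)).2 i (e.g ω) with h1 | h1 <;>
  rcases (d.hy (e.s (e.T^[d.W * t] ω))).2 i (e.g ω) with h2 | h2 <;>
  rw [h1, h2] <;> norm_num

/-- a change of the selection costs at most `2 (mv + mv ∘ S ^ t)` -/
theorem sel_cmp (F : Fin d.n → Fin d.n → ℝ) (hF : ∀ a b, |F a b| ≤ 1) (l t : ℕ) (ω : e.Ω) :
    |F (e.s (e.T^[d.W * l] ω)) (e.s (e.T^[d.W * t] (e.T^[d.W * l] ω))) -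
      F (e.s ω) (e.s (e.T^[d.W * t] ω))| ≤ 2 * (e.mv l ω + e.mv l (e.T^[d.W * t] ω)) := by
  have hc : e.T^[d.W * t] (e.T^[d.W * l] ω) = e.T^[d.W * l] (e.T^[d.W * t] ω) := by
    rw [← Function.iterate_add_apply, ← Function.iterate_add_apply, Nat.add_comm]
  rw [hc]
  have h0 := mv_nonneg e l ω
  have h0' := mv_nonneg e l (e.T^[d.W * t] ω)
  by_cases h1 : e.s (e.T^[d.W * l] ω) = e.s ω
  · by_cases h2 : e.s (e.T^[d.W * l] (e.T^[d.W * t] ω)) = e.s (e.T^[d.W * t] ω)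
    · rw [h1, h2, sub_self, abs_zero]
      linarith
    · have h3 : e.mv l (e.T^[d.W * t] ω) = 1 := by unfold SwE.mv; exact if_neg h2
      have h4 := hF (e.s (e.T^[d.W * l] ω)) (e.s (e.T^[d.W * l] (e.T^[d.W * t] ω)))
      have h5 := hF (e.s ω) (e.s (e.T^[d.W * t] ω))
      have h6 := abs_sub (F (e.s (e.T^[d.W * l] ω)) (e.s (e.T^[d.W * l] (e.T^[d.W * t] ω))))
        (F (e.s ω) (e.s (e.T^[d.W * t] ω)))
      linarith
  · have h3 : e.mv l ω = 1 := by unfold SwE.mv; exact if_neg h1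
    have h4 := hF (e.s (e.T^[d.W * l] ω)) (e.s (e.T^[d.W * l] (e.T^[d.W * t] ω)))
    have h5 := hF (e.s ω) (e.s (e.T^[d.W * t] ω))
    have h6 := abs_sub (F (e.s (e.T^[d.W * l] ω)) (e.s (e.T^[d.W * l] (e.T^[d.W * t] ω))))
      (F (e.s ω) (e.s (e.T^[d.W * t] ω)))
    linarith

/-- integral of the bound -/
theorem mv2_int (l t : ℕ) (A : Set e.Ω) (hA : MeasurableSet[Inv e.T d.W] A) :
    ∫ ω in A, 2 * (e.mv l ω + e.mv l (e.T^[d.W * t] ω)) ∂e.P = 4 * ∫ ω in A, e.mv l ω ∂e.P := by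
  have h1 := shift_int e.P e.T e.mp d.W t A hA (e.mv l) (mv_meas e l)
  have i1 : Integrable (fun ω => e.mv l ω) (e.P.restrict A) := (mv_int e l).integrableOn
  have i2 : Integrable (fun ω => e.mv l (e.T^[d.W * t] ω)) (e.P.restrict A) :=
    (int_bdd e.P (fun ω => e.mv l (e.T^[d.W * t] ω)) ((mv_meas e l).comp (meas_iter e.T _)) 1
      fun ω => by
        rw [abs_of_nonneg (mv_nonneg e l _)]; exact mv_le e l _).integrableOn
  rw [integral_const_mul, integral_add i1 i2, h1]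
  ring

end S3

theorem pf_S3 (hec : T_EC) (hpw : T_PW) : T_S3 := by
  intro d e L t i A hL hA
  have hW := d.hW
  have hD : 0 < Dlt d.β := Dlt_pos d.β
  have hIJ : Inv e.T d.W ≤ Inv e.T (d.W * Dlt d.β) := inv_mono e.T d.W _
  have hJm : Inv e.T (d.W * Dlt d.β) ≤ e.mΩ := inv_le e.T _
  have hIm : Inv e.T d.W ≤ e.mΩ := inv_le e.T _
  have hAm : MeasurableSet A := hIm A hA
  have hgm := g_meas e
  -- the selected products
  set sel : (Fin d.n → Fin d.n → e.Ω → ℝ) → e.Ω → ℝ :=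
    fun F ω => F (e.s ω) (e.s (e.T^[d.W * t] ω)) ω with hsel
  have sel_meas : ∀ F : Fin d.n → Fin d.n → e.Ω → ℝ, (∀ a b, Measurable (F a b)) →
      Measurable (sel F) := fun F hF =>
    meas_sel _ _ e.sm (e.sm.comp (meas_iter e.T _)) F hF
  set Φ : e.Ω → ℝ := sel fun a b ω => d.gg a b i (e.g ω) with hΦ
  have Φm : Measurable Φ := sel_meas _ fun a b => (gg_meas a b i).comp hgm
  have Φb : ∀ ω, |Φ ω| ≤ 1 := fun ω => gg_abs _ _ _ _
  set Gc : Fin d.n → Fin d.n → e.Ω → ℝ :=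
    fun a b ω => clp ((d.P'[d.gg a b i | Inv d.T' d.W]) (e.g ω)) with hGc
  have Gcm : ∀ a b, Measurable (Gc a b) := fun a b => clp_meas.comp
    ((stronglyMeasurable_condExp.measurable.mono (inv_le d.T' d.W) le_rfl).comp hgm)
  set Ψ : e.Ω → ℝ := sel Gc with hΨ
  have Ψm : Measurable Ψ := sel_meas _ Gcm
  have Ψb : ∀ ω, |Ψ ω| ≤ 1 := fun ω => clp_abs _
  have Gcinv : ∀ a b r ω, Gc a b (e.T^[d.W * r] ω) = Gc a b ω := by
    intro a b r ω
    have h1 : ∀ l : ℕ, ∀ ω', (d.P'[d.gg a b i | Inv d.T' d.W]) (d.T'^[d.W * l] ω') =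
        (d.P'[d.gg a b i | Inv d.T' d.W]) ω' := by
      intro l
      induction l with
      | zero => intro ω'; rfl
      | succ l ih =>
        intro ω'
        rw [Nat.mul_succ, Function.iterate_add_apply, ih,
          (hec d.Ω' d.P' d.T' d.W 0 (d.gg a b i) d.mp' (gg_meas a b i)
            ⟨1, gg_abs a b i⟩).2]
    simp only [hGc]
    rw [g_iter, h1]
  have Φi : Integrable Φ e.P := int_bdd e.P _ Φm 1 Φb
  have Ψi : Integrable Ψ e.P := int_bdd e.P _ Ψm 1 Ψb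
  -- the average
  set Φa : e.Ω → ℝ := Av e.T (d.W * Dlt d.β) L Φ with hΦa
  have Φam : Measurable Φa := by
    rw [hΦa]
    unfold Av
    exact (Finset.measurable_sum _ fun l _ => Φm.comp (meas_iter e.T _)).div_const _
  have hLr : (0 : ℝ) < L := by exact_mod_cast hL
  have Avb : ∀ (F : ℕ → ℝ), (∀ l, |F l| ≤ 1) → |(∑ l ∈ range L, F l) / L| ≤ 1 := by
    intro F hF
    rw [abs_div, abs_of_pos hLr, div_le_one hLr]
    refine (Finset.abs_sum_le_sum_abs _ _).trans ((Finset.sum_le_sum fun l _ => hF l).trans ?_)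
    simp
  have Φab : ∀ ω, |Φa ω| ≤ 1 := fun ω => Avb _ fun l => Φb _
  have Φai : Integrable Φa e.P := int_bdd e.P _ Φam 1 Φab
  have hav : e.P[Φa | Inv e.T (d.W * Dlt d.β)] =ᵐ[e.P] e.P[Φ | Inv e.T (d.W * Dlt d.β)] :=
    ce_avg hec e.P e.T e.mp (d.W * Dlt d.β) L hL Φ Φm ⟨1, Φb⟩
  have step1 := ce_cmp e.P (Inv e.T d.W) (Inv e.T (d.W * Dlt d.β)) hIJ hJm A hA Φ Φa Ψ Φi Φai Ψi
    hav
  -- the mismatch
  have hF : dl e.ys (e.yt t) i = fun ω => (1 / 2 : ℝ) - (1 / 2 : ℝ) * Φ ω := by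
    funext ω
    rw [dl_eq]
    simp only [hΦ, hsel]
    ring
  have hce : ∀ m : MeasurableSpace e.Ω, m ≤ e.mΩ → e.P[dl e.ys (e.yt t) i | m] =ᵐ[e.P]
      fun ω => (1 / 2 : ℝ) - (1 / 2 : ℝ) * (e.P[Φ | m]) ω := by
    intro m hm
    have h1 : e.P[dl e.ys (e.yt t) i | m] =ᵐ[e.P]
        e.P[fun _ => (1 / 2 : ℝ) | m] - e.P[(1 / 2 : ℝ) • Φ | m] := by
      rw [hF]
      exact condExp_sub (integrable_const _) (Φi.const_mul _) m
    have h2 : e.P[(1 / 2 : ℝ) • Φ | m] =ᵐ[e.P] (1 / 2 : ℝ) • e.P[Φ | m] := condExp_smul _ _ m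
    have h3 : e.P[fun _ => (1 / 2 : ℝ) | m] = fun _ => (1 / 2 : ℝ) := condExp_const hm _
    filter_upwards [h1, h2] with ω e1 e2
    rw [e1, Pi.sub_apply, e2, h3]
    rfl
  have hlhs : ∫ ω in A, |(e.P[dl e.ys (e.yt t) i | Inv e.T (d.W * Dlt d.β)]) ω -
      (e.P[dl e.ys (e.yt t) i | Inv e.T d.W]) ω| ∂e.P =
      1 / 2 * ∫ ω in A, |(e.P[Φ | Inv e.T (d.W * Dlt d.β)]) ω - (e.P[Φ | Inv e.T d.W]) ω| ∂e.P := by
    rw [← integral_const_mul]
    refine integral_congr_ae (ae_restrict_of_ae ?_)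
    filter_upwards [hce _ hJm, hce _ hIm] with ω e1 e2
    rw [e1, e2]
    have : (1 / 2 : ℝ) - 1 / 2 * (e.P[Φ | Inv e.T (d.W * Dlt d.β)]) ω -
        (1 / 2 - 1 / 2 * (e.P[Φ | Inv e.T d.W]) ω) =
      (-(1 / 2)) * ((e.P[Φ | Inv e.T (d.W * Dlt d.β)]) ω - (e.P[Φ | Inv e.T d.W]) ω) := by ring
    rw [this, abs_mul]
    norm_num
  -- step 2: the average is close to the selected conditional expectations
  have hGae : ∀ᵐ ω ∂e.P, ∀ a b, Gc a b ω = (d.P'[d.gg a b i | Inv d.T' d.W]) (e.g ω) := by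
    have h1 : ∀ a b, ∀ᵐ ω' ∂d.P', |(d.P'[d.gg a b i | Inv d.T' d.W]) ω'| ≤ 1 := fun a b =>
      ae_bdd_abs_condExp_of_ae_bdd_abs (Eventually.of_forall fun ω => gg_abs a b i ω)
    have h2 : ∀ᵐ ω' ∂d.P', ∀ a b, |(d.P'[d.gg a b i | Inv d.T' d.W]) ω'| ≤ 1 :=
      ae_all_iff.2 fun a => ae_all_iff.2 fun b => h1 a b
    have h3 := e.fac.1.quasiMeasurePreserving.ae h2
    filter_upwards [h3] with ω h a b
    simp only [hGc]
    exact clp_eq _ (h a b)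
  have bound2 : ∫ ω in A, |Φa ω - Ψ ω| ∂e.P ≤
      4 / (L : ℝ) * ∑ l ∈ range L, ∫ ω in A, e.mv (Dlt d.β * l) ω ∂e.P +
      ∑ a, ∑ b, ∫ ω in A, |Av d.T' (d.W * Dlt d.β) L (d.gg a b i) (e.g ω) -
        (d.P'[d.gg a b i | Inv d.T' d.W]) (e.g ω)| ∂e.P := by
    have Xm : ∀ a b, Measurable fun ω =>
        |Av d.T' (d.W * Dlt d.β) L (d.gg a b i) (e.g ω) - Gc a b ω| := by
      intro a b
      have hAvm : Measurable (Av d.T' (d.W * Dlt d.β) L (d.gg a b i)) := by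
        unfold Av
        exact (Finset.measurable_sum _ fun l _ =>
          (gg_meas a b i).comp (meas_iter d.T' _)).div_const _
      exact ((hAvm.comp hgm).sub (Gcm a b)).abs
    have Xb : ∀ a b ω, |(|Av d.T' (d.W * Dlt d.β) L (d.gg a b i) (e.g ω) - Gc a b ω|)| ≤ 2 := by
      intro a b ω
      rw [abs_abs]
      have h1 : |Av d.T' (d.W * Dlt d.β) L (d.gg a b i) (e.g ω)| ≤ 1 :=
        Avb _ fun l => gg_abs a b i _
      have h2 : |Gc a b ω| ≤ 1 := clp_abs _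
      have h3 := abs_sub (Av d.T' (d.W * Dlt d.β) L (d.gg a b i) (e.g ω)) (Gc a b ω)
      linarith
    have Xi : ∀ a b, Integrable (fun ω =>
        |Av d.T' (d.W * Dlt d.β) L (d.gg a b i) (e.g ω) - Gc a b ω|) (e.P.restrict A) :=
      fun a b => (int_bdd e.P _ (Xm a b) 2 (Xb a b)).integrableOn
    have Yi : ∀ l, Integrable (fun ω => 2 * (e.mv (Dlt d.β * l) ω +
        e.mv (Dlt d.β * l) (e.T^[d.W * t] ω))) (e.P.restrict A) := by
      intro l
      refine (int_bdd e.P (fun ω => 2 * (e.mv (Dlt d.β * l) ω +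
        e.mv (Dlt d.β * l) (e.T^[d.W * t] ω)))
        (((mv_meas e _).add ((mv_meas e _).comp (meas_iter e.T _))).const_mul 2) 4
        fun ω => ?_).integrableOn
      have h1 := mv_nonneg e (Dlt d.β * l) ω
      have h2 := mv_nonneg e (Dlt d.β * l) (e.T^[d.W * t] ω)
      have h3 := mv_le e (Dlt d.β * l) ω
      have h4 := mv_le e (Dlt d.β * l) (e.T^[d.W * t] ω)
      rw [abs_of_nonneg (by linarith)]
      linarith
    have hpt : ∀ ω, |Φa ω - Ψ ω| ≤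
        (L : ℝ)⁻¹ * ∑ l ∈ range L, 2 * (e.mv (Dlt d.β * l) ω +
          e.mv (Dlt d.β * l) (e.T^[d.W * t] ω)) +
        ∑ a, ∑ b, |Av d.T' (d.W * Dlt d.β) L (d.gg a b i) (e.g ω) - Gc a b ω| := by
      intro ω
      set a₀ := e.s ω with ha₀
      set b₀ := e.s (e.T^[d.W * t] ω) with hb₀
      have h1 : |Φa ω - Av d.T' (d.W * Dlt d.β) L (d.gg a₀ b₀ i) (e.g ω)| ≤
          (L : ℝ)⁻¹ * ∑ l ∈ range L, 2 * (e.mv (Dlt d.β * l) ω +
          e.mv (Dlt d.β * l) (e.T^[d.W * t] ω)) := by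
        rw [hΦa]
        unfold Av
        rw [← sub_div, ← Finset.sum_sub_distrib, abs_div, abs_of_pos hLr, div_eq_inv_mul]
        refine mul_le_mul_of_nonneg_left ?_ (by positivity)
        refine (Finset.abs_sum_le_sum_abs _ _).trans (Finset.sum_le_sum fun l _ => ?_)
        have h2 := sel_cmp e (fun a b => d.gg a b i (d.T'^[d.W * Dlt d.β * l] (e.g ω)))
          (fun a b => gg_abs a b i _) (Dlt d.β * l) t ω
        simp only [hΦ, hsel]
        rw [g_iter, mul_assoc d.W]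
        rw [mul_assoc d.W] at h2
        exact h2
      have h2 : |Av d.T' (d.W * Dlt d.β) L (d.gg a₀ b₀ i) (e.g ω) - Ψ ω| ≤
          ∑ a, ∑ b, |Av d.T' (d.W * Dlt d.β) L (d.gg a b i) (e.g ω) - Gc a b ω| := by
        have h3 : |Av d.T' (d.W * Dlt d.β) L (d.gg a₀ b₀ i) (e.g ω) - Gc a₀ b₀ ω| ≤
            ∑ b, |Av d.T' (d.W * Dlt d.β) L (d.gg a₀ b i) (e.g ω) - Gc a₀ b ω| :=
          Finset.single_le_sum (f := fun b =>
            |Av d.T' (d.W * Dlt d.β) L (d.gg a₀ b i) (e.g ω) - Gc a₀ b ω|)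
            (fun b _ => abs_nonneg _) (Finset.mem_univ b₀)
        refine h3.trans ?_
        exact Finset.single_le_sum (f := fun a => ∑ b,
          |Av d.T' (d.W * Dlt d.β) L (d.gg a b i) (e.g ω) - Gc a b ω|)
          (fun a _ => Finset.sum_nonneg fun b _ => abs_nonneg _) (Finset.mem_univ a₀)
      have h3 : Φa ω - Ψ ω = (Φa ω - Av d.T' (d.W * Dlt d.β) L (d.gg a₀ b₀ i) (e.g ω)) +
        (Av d.T' (d.W * Dlt d.β) L (d.gg a₀ b₀ i) (e.g ω) - Ψ ω) := by ring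
      rw [h3]
      exact (abs_add_le _ _).trans (add_le_add h1 h2)
    have i1 : Integrable (fun ω => (L : ℝ)⁻¹ * ∑ l ∈ range L, 2 * (e.mv (Dlt d.β * l) ω +
        e.mv (Dlt d.β * l) (e.T^[d.W * t] ω))) (e.P.restrict A) :=
      (integrable_finsetSum _ fun l _ => Yi l).const_mul _
    have i2 : Integrable (fun ω => ∑ a, ∑ b,
        |Av d.T' (d.W * Dlt d.β) L (d.gg a b i) (e.g ω) - Gc a b ω|) (e.P.restrict A) :=
      integrable_finsetSum _ fun a _ => integrable_finsetSum _ fun b _ => Xi a b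
    refine (integral_mono ((Φai.sub Ψi).abs.integrableOn) (i1.add i2) hpt).trans (le_of_eq ?_)
    have e0 : ∫ ω in A, ((fun ω => (L : ℝ)⁻¹ * ∑ l ∈ range L, 2 * (e.mv (Dlt d.β * l) ω +
        e.mv (Dlt d.β * l) (e.T^[d.W * t] ω))) + (fun ω => ∑ a, ∑ b,
        |Av d.T' (d.W * Dlt d.β) L (d.gg a b i) (e.g ω) - Gc a b ω|)) ω ∂e.P =
        (∫ ω in A, (L : ℝ)⁻¹ * ∑ l ∈ range L, 2 * (e.mv (Dlt d.β * l) ω +
        e.mv (Dlt d.β * l) (e.T^[d.W * t] ω)) ∂e.P) + ∫ ω in A, ∑ a, ∑ b,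
        |Av d.T' (d.W * Dlt d.β) L (d.gg a b i) (e.g ω) - Gc a b ω| ∂e.P := integral_add' i1 i2
    rw [e0, integral_const_mul, integral_finsetSum _ fun l _ => Yi l]
    have e1 : ∑ l ∈ range L, ∫ ω in A, 2 * (e.mv (Dlt d.β * l) ω +
        e.mv (Dlt d.β * l) (e.T^[d.W * t] ω)) ∂e.P =
        ∑ l ∈ range L, 4 * ∫ ω in A, e.mv (Dlt d.β * l) ω ∂e.P :=
      Finset.sum_congr rfl fun l _ => mv2_int e (Dlt d.β * l) t A hA
    rw [e1, ← Finset.mul_sum, integral_finsetSum _ fun a _ =>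
      integrable_finsetSum _ fun b _ => Xi a b]
    have e2 : ∑ a, ∫ ω in A, ∑ b, |Av d.T' (d.W * Dlt d.β) L (d.gg a b i) (e.g ω) - Gc a b ω| ∂e.P
        = ∑ a, ∑ b, ∫ ω in A, |Av d.T' (d.W * Dlt d.β) L (d.gg a b i) (e.g ω) -
        (d.P'[d.gg a b i | Inv d.T' d.W]) (e.g ω)| ∂e.P := by
      refine Finset.sum_congr rfl fun a _ => ?_
      rw [integral_finsetSum _ fun b _ => Xi a b]
      refine Finset.sum_congr rfl fun b _ => ?_
      refine integral_congr_ae (ae_restrict_of_ae ?_)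
      filter_upwards [hGae] with ω h
      rw [h a b]
    rw [e2]
    ring
  -- step 3: the selected conditional expectations
  have hDr : (0 : ℝ) < Dlt d.β := by exact_mod_cast hD
  have bound3 : ∫ ω in A, |(e.P[Ψ | Inv e.T (d.W * Dlt d.β)]) ω -
      (e.P[Ψ | Inv e.T d.W]) ω| ∂e.P ≤
      4 / (Dlt d.β : ℝ) * ∑ r ∈ range (Dlt d.β), ∫ ω in A, e.mv r ω ∂e.P := by
    have h1 := hpw e.Ω e.P e.T d.W (Dlt d.β) Ψ e.mp Ψm ⟨1, Ψb⟩ hW hD
    have Ψr : ∀ r, Integrable (fun ω => Ψ (e.T^[d.W * r] ω)) e.P := fun r =>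
      int_bdd e.P (fun ω => Ψ (e.T^[d.W * r] ω)) (Ψm.comp (meas_iter e.T _)) 1 fun ω => Ψb _
    have h2 : ∀ᵐ ω ∂e.P, ∀ r : ℕ,
        (e.P[Ψ - (fun ω => Ψ (e.T^[d.W * r] ω)) | Inv e.T (d.W * Dlt d.β)]) ω =
        (e.P[Ψ | Inv e.T (d.W * Dlt d.β)]) ω -
        (e.P[fun ω => Ψ (e.T^[d.W * r] ω) | Inv e.T (d.W * Dlt d.β)]) ω :=
      ae_all_iff.2 fun r => condExp_sub Ψi (Ψr r) (Inv e.T (d.W * Dlt d.β))
    have Zi : ∀ r, Integrable (fun ω =>
        |(e.P[Ψ - (fun ω => Ψ (e.T^[d.W * r] ω)) | Inv e.T (d.W * Dlt d.β)]) ω|)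
        (e.P.restrict A) := fun r => integrable_condExp.abs.integrableOn
    have Yi : ∀ l, Integrable (fun ω => 2 * (e.mv l ω +
        e.mv l (e.T^[d.W * t] ω))) (e.P.restrict A) := by
      intro l
      refine (int_bdd e.P (fun ω => 2 * (e.mv l ω + e.mv l (e.T^[d.W * t] ω)))
        (((mv_meas e _).add ((mv_meas e _).comp (meas_iter e.T _))).const_mul 2) 4
        fun ω => ?_).integrableOn
      have h1 := mv_nonneg e l ω
      have h2 := mv_nonneg e l (e.T^[d.W * t] ω)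
      have h3 := mv_le e l ω
      have h4 := mv_le e l (e.T^[d.W * t] ω)
      rw [abs_of_nonneg (by linarith)]
      linarith
    have h3 : ∀ r : ℕ, ∫ ω in A,
        |(e.P[Ψ - (fun ω => Ψ (e.T^[d.W * r] ω)) | Inv e.T (d.W * Dlt d.β)]) ω| ∂e.P ≤
        4 * ∫ ω in A, e.mv r ω ∂e.P := by
      intro r
      refine (setIntegral_abs_condExp_le (μ := e.P) (hIJ A hA)
        (Ψ - (fun ω => Ψ (e.T^[d.W * r] ω)))).trans ?_
      rw [← mv2_int e r t A hA]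
      refine integral_mono ((Ψi.sub (Ψr r)).abs.integrableOn) (Yi r) fun ω => ?_
      have h4 := sel_cmp e (fun a b => Gc a b ω) (fun a b => clp_abs _) r t ω
      have h5 : Ψ (e.T^[d.W * r] ω) = Gc (e.s (e.T^[d.W * r] ω))
          (e.s (e.T^[d.W * t] (e.T^[d.W * r] ω))) ω := by
        simp only [hΨ, hsel]
        exact Gcinv _ _ r ω
      change |Ψ ω - Ψ (e.T^[d.W * r] ω)| ≤ _
      rw [abs_sub_comm, h5]
      exact h4
    have h4 : ∫ ω in A, |(e.P[Ψ | Inv e.T (d.W * Dlt d.β)]) ω - (e.P[Ψ | Inv e.T d.W]) ω| ∂e.P ≤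
        ∫ ω in A, (Dlt d.β : ℝ)⁻¹ * ∑ r ∈ range (Dlt d.β),
        |(e.P[Ψ - (fun ω => Ψ (e.T^[d.W * r] ω)) | Inv e.T (d.W * Dlt d.β)]) ω| ∂e.P := by
      refine integral_mono_ae (integrable_condExp.sub integrable_condExp).abs.integrableOn
        ((integrable_finsetSum _ fun r _ => Zi r).const_mul _) (ae_restrict_of_ae ?_)
      filter_upwards [h1, h2] with ω e1 e2
      change |(e.P[Ψ | Inv e.T (d.W * Dlt d.β)]) ω - (e.P[Ψ | Inv e.T d.W]) ω| ≤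
        (Dlt d.β : ℝ)⁻¹ * ∑ r ∈ range (Dlt d.β),
        |(e.P[Ψ - (fun ω => Ψ (e.T^[d.W * r] ω)) | Inv e.T (d.W * Dlt d.β)]) ω|
      rw [e1]
      have e3 : (e.P[Ψ | Inv e.T (d.W * Dlt d.β)]) ω - (∑ r ∈ range (Dlt d.β),
          (e.P[fun ω' => Ψ (e.T^[d.W * r] ω') | Inv e.T (d.W * Dlt d.β)]) ω) / (Dlt d.β : ℝ) =
          (Dlt d.β : ℝ)⁻¹ * ∑ r ∈ range (Dlt d.β),
          (e.P[Ψ - (fun ω => Ψ (e.T^[d.W * r] ω)) | Inv e.T (d.W * Dlt d.β)]) ω := by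
        rw [Finset.sum_congr rfl fun r _ => e2 r, Finset.sum_sub_distrib, Finset.sum_const,
          card_range, nsmul_eq_mul]
        field_simp
      rw [e3, abs_mul, abs_of_pos (inv_pos.2 hDr)]
      exact mul_le_mul_of_nonneg_left (Finset.abs_sum_le_sum_abs _ _) (by positivity)
    refine h4.trans ?_
    rw [integral_const_mul, integral_finsetSum _ fun r _ => Zi r]
    have h5 : ∑ r ∈ range (Dlt d.β), ∫ ω in A,
        |(e.P[Ψ - (fun ω => Ψ (e.T^[d.W * r] ω)) | Inv e.T (d.W * Dlt d.β)]) ω| ∂e.P ≤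
        4 * ∑ r ∈ range (Dlt d.β), ∫ ω in A, e.mv r ω ∂e.P := by
      rw [Finset.mul_sum]
      exact Finset.sum_le_sum fun r _ => h3 r
    calc (Dlt d.β : ℝ)⁻¹ * ∑ r ∈ range (Dlt d.β), ∫ ω in A,
          |(e.P[Ψ - (fun ω => Ψ (e.T^[d.W * r] ω)) | Inv e.T (d.W * Dlt d.β)]) ω| ∂e.P
        ≤ (Dlt d.β : ℝ)⁻¹ * (4 * ∑ r ∈ range (Dlt d.β), ∫ ω in A, e.mv r ω ∂e.P) :=
          mul_le_mul_of_nonneg_left h5 (by positivity)
      _ = 4 / (Dlt d.β : ℝ) * ∑ r ∈ range (Dlt d.β), ∫ ω in A, e.mv r ω ∂e.P := by ring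
  rw [hlhs]
  unfold SwE.E3
  have e5 : 4 / (Dlt d.β : ℝ) * ∑ r ∈ range (Dlt d.β), ∫ ω in A, e.mv r ω ∂e.P =
    2 * (2 / (Dlt d.β : ℝ) * ∑ r ∈ range (Dlt d.β), ∫ ω in A, e.mv r ω ∂e.P) := by ring
  rw [e5] at bound3
  linarith

end Pool.Agent.H17.AG
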